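import Pool.Agent.W990.EB.Stm

/-! # Project EB: the quartic inequality -/

namespace Pool.Agent.W436.EB

open Pool.Agent.W990.EB

theorem fq : S_F := by
  intro l u h φ hφ
  obtain ⟨y, hy⟩ : ∃ y, y = Real.sqrt ((l + u - 1369 / 1260) / 2) := ⟨_, rfl⟩
  have hy0 : 0 ≤ y := by rw [hy]; exact Real.sqrt_nonneg _
  have hy2 : y ^ 2 = (l + u - 1369 / 1260) / 2 := by
    rw [hy]
    exact Real.sq_sqrt (by linarith)
  rw [← hy]
  have hlu : l + u = 2 * y ^ 2 + 1369 / 1260 := by linarith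
  have h1 : 0 ≤ (φ - y) ^ 2 * ((φ + y) ^ 2 - 1369 / 1260) := by
    apply mul_nonneg (sq_nonneg _)
    have h2 : (1369 : ℝ) / 1260 ≤ y ^ 2 := by linarith
    nlinarith [mul_nonneg hφ hy0, sq_nonneg φ]
  have h3 : (l + u - 1369 / 1260) ^ 2 / 4 = y ^ 4 := by
    rw [hlu]; ring
  have h4 : (l + u - 1369 / 1260) / 2 = y ^ 2 := hy2.symm
  rw [h3, h4, hlu]
  nlinarith [h1]

end Pool.Agent.W436.EB
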